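import Pool.Agent.helper41.Sch.Defs

/-!
# Module CH: charts
-/

open scoped Pointwise ContDiff
open MeasureTheory Set Filter Topology

namespace Pool.Agent.helper41.Sch

theorem CH_inner (b : OrthonormalBasis (Fin 3) ℝ E3) (x v : E3) :
    inner ℝ x v = dot (coord b x).1 (coord b v).1 + (coord b x).2 * (coord b v).2 := by
  have h := b.sum_inner_mul_inner x v
  rw [← h, Fin.sum_univ_three]
  simp only [dot, coord]
  rw [real_inner_comm x (b 0), real_inner_comm x (b 1), real_inner_comm x (b 2)]

theorem CH_coord_comb (b : OrthonormalBasis (Fin 3) ℝ E3) (p : P × ℝ) :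
    coord b (p.1.1 • b 0 + p.1.2 • b 1 + p.2 • b 2) = p := by
  have h (i j : Fin 3) : inner ℝ (b i) (b j) = if i = j then (1 : ℝ) else 0 :=
    b.inner_eq_ite i j
  unfold coord
  simp only [inner_add_right, inner_smul_right, h]
  obtain ⟨⟨p1, p2⟩, p3⟩ := p
  simp

/-- the chart coordinates as a linear equivalence -/
noncomputable def CHe (b : OrthonormalBasis (Fin 3) ℝ E3) : E3 ≃L[ℝ] P × ℝ :=
  LinearEquiv.toContinuousLinearEquiv
    { toFun := coord b
      map_add' := by
        intro x y
        simp [coord, inner_add_right]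
      map_smul' := by
        intro t x
        simp [coord, inner_smul_right]
      invFun := fun p => p.1.1 • b 0 + p.1.2 • b 1 + p.2 • b 2
      left_inv := by
        intro x
        have h := b.sum_repr' x
        rw [Fin.sum_univ_three] at h
        exact h
      right_inv := fun p => CH_coord_comb b p }

theorem CHe_apply (b : OrthonormalBasis (Fin 3) ℝ E3) (x : E3) : CHe b x = coord b x := rfl

theorem CHe_coe (b : OrthonormalBasis (Fin 3) ℝ E3) : ⇑(CHe b) = coord b := rfl

theorem CH_mp (b : OrthonormalBasis (Fin 3) ℝ E3) :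
    MeasurePreserving (coord b) (volume : Measure E3) (volume : Measure (P × ℝ)) := by
  have h1 : MeasurePreserving b.repr := b.measurePreserving_repr
  have h2 : MeasurePreserving (@WithLp.ofLp 2 (Fin 3 → ℝ)) := PiLp.volume_preserving_ofLp (Fin 3)
  have h3 := volume_preserving_piFinSuccAbove (fun _ : Fin 3 => ℝ) (Fin.last 2)
  have h4 : MeasurePreserving (Prod.map (id : ℝ → ℝ) (MeasurableEquiv.piFinTwo fun _ => ℝ)) :=
    (MeasurePreserving.id volume).prod (volume_preserving_piFinTwo fun _ => ℝ)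
  have h5 : MeasurePreserving (Prod.swap : ℝ × P → P × ℝ) :=
    Measure.measurePreserving_swap
  have h6 := h5.comp (h4.comp (h3.comp (h2.comp h1)))
  have hfun : coord b = Prod.swap ∘ Prod.map id (MeasurableEquiv.piFinTwo fun _ => ℝ) ∘
      (MeasurableEquiv.piFinSuccAbove (fun _ : Fin 3 => ℝ) (Fin.last 2)) ∘ WithLp.ofLp ∘
        b.repr := by
    funext x
    have hr (i : Fin 3) : b.repr x i = inner ℝ (b i) x := b.repr_apply_apply x i
    unfold coord
    refine Prod.ext (Prod.ext ?_ ?_) ?_
    · exact (hr 0).symm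
    · exact (hr 1).symm
    · exact (hr 2).symm
  rw [hfun]
  exact h6

theorem CH_isBody_image {V W : Type*} [NormedAddCommGroup V] [NormedSpace ℝ V]
    [NormedAddCommGroup W] [NormedSpace ℝ W] (e : V ≃L[ℝ] W) {K : Set V}
    (hK : IsCompact K ∧ Convex ℝ K ∧ K.Nonempty) :
    IsCompact (e '' K) ∧ Convex ℝ (e '' K) ∧ (e '' K).Nonempty :=
  ⟨hK.1.image e.continuous, hK.2.1.linear_image e.toLinearEquiv.toLinearMap, hK.2.2.image _⟩

theorem coord_facts (b : OrthonormalBasis (Fin 3) ℝ E3) :
    (∀ K : Set E3, IsBody K → Body (coord b '' K)) ∧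
    (∀ A : Set (P × ℝ), Body A → IsBody (coord b ⁻¹' A)) ∧
    (∀ A : Set (P × ℝ), coord b '' (coord b ⁻¹' A) = A) ∧
    (∀ K L : Set E3, coord b '' (K + L) = coord b '' K + coord b '' L) ∧
    (∀ K : Set E3, IsBody K → vol K = (volume (coord b '' K)).toReal) ∧
    (∀ K : Set E3, IsBody K → ∀ v, hE K v = H (coord b '' K) (coord b v).1 (coord b v).2) ∧
    (∀ K : Set E3, IsBody K → F (coord b '' K) = chart b K) := by
  have himg : ∀ K : Set E3, IsBody K → Body (coord b '' K) := fun K hK =>
    CH_isBody_image (CHe b) hK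
  have hHE : ∀ K : Set E3, ∀ v, hE K v = H (coord b '' K) (coord b v).1 (coord b v).2 := by
    intro K v
    unfold hE H
    rw [image_image]
    congr 1
    apply image_congr
    intro x _
    exact CH_inner b x v
  refine ⟨himg, ?_, ?_, ?_, ?_, fun K _ => hHE K, ?_⟩
  · intro A hA
    have h1 := CH_isBody_image (CHe b).symm (K := A) hA
    have h2 : (CHe b).symm '' A = coord b ⁻¹' A := by
      rw [← CHe_coe b]
      exact (CHe b).toEquiv.symm.image_eq_preimage_symm A
    rw [h2] at h1
    exact h1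
  · intro A
    exact image_preimage_eq A (CHe b).surjective
  · intro K L
    exact image_add (CHe b)
  · intro K hK
    unfold vol
    have hc := (himg K hK).1
    have h1 := (CH_mp b).measure_preimage hc.measurableSet.nullMeasurableSet
    rw [← CHe_coe b, (CHe b).injective.preimage_image] at h1
    rw [h1, CHe_coe b]
  · intro K _
    funext y
    unfold F chart
    rw [hHE K]
    have h1 := CH_coord_comb b (y, 1)
    simp only [one_smul] at h1
    rw [h1]

theorem CH_bdd {K : Set E3} (hK : IsBody K) (u : E3) :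
    BddAbove ((fun x => inner ℝ x u) '' K) :=
  (hK.1.image (by fun_prop)).bddAbove

theorem CH_le {K : Set E3} (hK : IsBody K) {x : E3} (hx : x ∈ K) (u : E3) :
    inner ℝ x u ≤ hE K u :=
  le_csSup (CH_bdd hK u) ⟨x, hx, rfl⟩

theorem CH_exists {K : Set E3} (hK : IsBody K) (u : E3) : ∃ x ∈ K, hE K u = inner ℝ x u := by
  obtain ⟨x, hx, h⟩ := (hK.1.image (f := fun x => inner ℝ x u) (by fun_prop)).sSup_mem
    (hK.2.2.image _)
  exact ⟨x, hx, h.symm⟩

theorem CH_hE_le {K : Set E3} (hK : IsBody K) {u : E3} {c : ℝ}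
    (h : ∀ x ∈ K, inner ℝ x u ≤ c) : hE K u ≤ c := by
  obtain ⟨x, hx, hxu⟩ := CH_exists hK u
  rw [hxu]
  exact h x hx

theorem hE_facts {K L : Set E3} (hK : IsBody K) (hL : IsBody L) :
    (∃ C, LipschitzWith C (hE K)) ∧ ConvexOn ℝ univ (hE K) ∧
    (∀ t : ℝ, 0 ≤ t → ∀ v, hE K (t • v) = t * hE K v) ∧
    (∀ v, hE (K + L) v = hE K v + hE L v) ∧ IsBody (K + L) := by
  have hKL : IsBody (K + L) := ⟨hK.1.add hL.1, hK.2.1.add hL.2.1, hK.2.2.add hL.2.2⟩
  refine ⟨?_, ?_, ?_, ?_, hKL⟩
  · obtain ⟨R, hR⟩ := hK.1.isBounded.exists_norm_le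
    refine ⟨Real.toNNReal R, LipschitzWith.of_le_add_mul _ fun u v => ?_⟩
    apply CH_hE_le hK
    intro x hx
    have hR0 : 0 ≤ R := (norm_nonneg x).trans (hR x hx)
    rw [Real.coe_toNNReal R hR0]
    have h1 : inner ℝ x u = inner ℝ x v + inner ℝ x (u - v) := by
      rw [← inner_add_right]
      congr 1
      abel
    rw [h1]
    refine add_le_add (CH_le hK hx v) ?_
    calc inner ℝ x (u - v) ≤ ‖x‖ * ‖u - v‖ := real_inner_le_norm _ _
      _ ≤ R * dist u v := by
        rw [dist_eq_norm]
        exact mul_le_mul_of_nonneg_right (hR x hx) (norm_nonneg _)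
  · refine ⟨convex_univ, fun u _ v _ s t hs ht _ => ?_⟩
    apply CH_hE_le hK
    intro x hx
    rw [inner_add_right, inner_smul_right, inner_smul_right]
    exact add_le_add (mul_le_mul_of_nonneg_left (CH_le hK hx u) hs)
      (mul_le_mul_of_nonneg_left (CH_le hK hx v) ht)
  · intro t ht v
    apply le_antisymm
    · apply CH_hE_le hK
      intro x hx
      rw [inner_smul_right]
      exact mul_le_mul_of_nonneg_left (CH_le hK hx v) ht
    · obtain ⟨x, hx, hxv⟩ := CH_exists hK v
      rw [hxv, ← inner_smul_right]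
      exact CH_le hK hx _
  · intro v
    apply le_antisymm
    · apply CH_hE_le hKL
      intro z hz
      obtain ⟨x, hx, y, hy, rfl⟩ := Set.mem_add.1 hz
      rw [inner_add_left]
      exact add_le_add (CH_le hK hx v) (CH_le hL hy v)
    · obtain ⟨x, hx, hxv⟩ := CH_exists hK v
      obtain ⟨y, hy, hyv⟩ := CH_exists hL v
      rw [hxv, hyv, ← inner_add_left]
      exact CH_le hKL (Set.add_mem_add hx hy) v

end Pool.Agent.helper41.Sch
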