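import Pool.Agent.helper95.Sch.BI
import Pool.Agent.helper54.Sch.JF
import Pool.Agent.helper41.Sch.VO
import Pool.Agent.helper51.Sch.TB
import Pool.Agent.helper17.Sch.CH

/-!
# Module LI: the mixed area measure in a chart
-/

open scoped Pointwise ContDiff
open MeasureTheory Set Filter Topology

namespace Pool.Agent.helper41.Sch

theorem LI_lip_test {φ : P → ℝ} (hφ : Test φ) : Lip φ := by
  obtain ⟨C, hC⟩ := hφ.1.1.lipschitzWith_of_hasCompactSupport hφ.1.2 (by norm_num)
  exact ⟨C, hC⟩

theorem LI_tilde_one (φ : P → ℝ) (y : P) : tilde φ y 1 = φ y := by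
  unfold tilde
  rw [if_pos one_pos, inv_one, one_smul, one_mul]

theorem LI_lip_add {f g : P → ℝ} (hf : Lip f) (hg : Lip g) : Lip (fun x => f x + g x) := by
  obtain ⟨C, hC⟩ := hf
  obtain ⟨D, hD⟩ := hg
  exact ⟨C + D, hC.add hD⟩

theorem LI_B_add_right {φ f g g' : P → ℝ} (hφ : Cc φ) (hf : Lip f) (hg : Lip g) (hg' : Lip g') :
    B φ f (fun x => g x + g' x) = B φ f g + B φ f g' := by
  rw [B_symm φ f, B_add_left hφ hg hg' hf, B_symm φ g, B_symm φ g']

theorem LI_F_add {A A' : Set (P × ℝ)} (hA : Body A) (hA' : Body A') :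
    F (A + A') = fun y => F A y + F A' y := by
  funext y
  exact H_add hA hA' y 1

/-- the difference of the volumes for two bodies whose support functions differ by `tilde φ` -/
theorem LI_vol {A A' : Set (P × ℝ)} (hA : Body A) (hA' : Body A') {φ : P → ℝ} (hφ : Test φ)
    (h : ∀ y s, H A' y s = H A y s + tilde φ y s) :
    (volume A').toReal - (volume A).toReal =
      B φ (F A) (F A) + B φ (F A) φ + (1 / 3) * B φ φ φ := by
  have hF : F A' = fun y => F A y + φ y := by
    funext y
    unfold F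
    rw [h y 1, LI_tilde_one]
  rw [volume_sub hA hA' hφ h, hF]
  exact integral_conj_sub hφ (F_LC hA) (hF ▸ F_LC hA')

theorem LI_integrable {S : Measure E3} (hS1 : IsFiniteMeasure S)
    (hS2 : S (Metric.sphere (0 : E3) 1)ᶜ = 0) {f : E3 → ℝ} (hf : Continuous f) :
    Integrable f S := by
  have h1 : IntegrableOn f (Metric.sphere (0 : E3) 1) S :=
    hf.continuousOn.integrableOn_compact (isCompact_sphere 0 1)
  have h2 : S.restrict (Metric.sphere (0 : E3) 1) = S :=
    Measure.restrict_eq_self_of_ae_mem (by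
      rw [ae_iff]
      exact hS2)
  rw [IntegrableOn, h2] at h1
  exact h1

theorem local_identity (b : OrthonormalBasis (Fin 3) ℝ E3) {K L : Set E3} (hK : IsBody K)
    (hL : IsBody L) {S : Measure E3} (hS : IsMixedArea K L S) {φ : P → ℝ} (hφ : Test φ) :
    ∫ v, lift b φ v ∂S = B φ (chart b K) (chart b L) := by
  obtain ⟨M, M', hM, hM', hH⟩ := exists_test_body hφ
  obtain ⟨c1, c2, c3, c4, c5, c6, c7⟩ := coord_facts b
  have hN : IsBody (coord b ⁻¹' M) := c2 M hM
  have hN' : IsBody (coord b ⁻¹' M') := c2 M' hM'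
  have hlift : ∀ v, lift b φ v = hE (coord b ⁻¹' M') v - hE (coord b ⁻¹' M) v := by
    intro v
    rw [c6 _ hN' v, c6 _ hN v, c3 M', c3 M, hH]
    unfold lift
    ring
  have hcont : ∀ {X : Set E3}, IsBody X → Continuous (hE X) := by
    intro X hX
    obtain ⟨C, hC⟩ := (hE_facts hX hX).1
    exact hC.continuous
  have hint : ∫ v, lift b φ v ∂S =
      3 * (V3 (coord b ⁻¹' M') K L - V3 (coord b ⁻¹' M) K L) := by
    simp only [hlift]
    rw [integral_sub (LI_integrable hS.1 hS.2.1 (hcont hN'))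
      (LI_integrable hS.1 hS.2.1 (hcont hN)), hS.2.2 _ hN', hS.2.2 _ hN]
    ring
  -- the bodies
  have hbK := c1 K hK
  have hbL := c1 L hL
  have hadd : ∀ {X Y : Set E3}, IsBody X → IsBody Y → IsBody (X + Y) := fun hX hY =>
    (hE_facts hX hY).2.2.2.2
  have hdiff : ∀ X : Set (P × ℝ), Body X →
      (volume (M' + X)).toReal - (volume (M + X)).toReal =
      B φ (F (M + X)) (F (M + X)) + B φ (F (M + X)) φ + (1 / 3) * B φ φ φ := by
    intro X hX
    apply LI_vol (hM.add hX) (hM'.add hX) hφ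
    intro y s
    rw [H_add hM' hX, H_add hM hX, hH]
    ring
  have hKL := hbK.add hbL
  have d0 := LI_vol hM hM' hφ hH
  have d1' := hdiff _ hbK
  have d2' := hdiff _ hbL
  have d3' := hdiff _ hKL
  -- the volumes in three-space
  have v0 : ∀ X : Set (P × ℝ), Body X → vol (coord b ⁻¹' X) = (volume X).toReal := by
    intro X hX
    rw [c5 _ (c2 X hX), c3]
  have v1 : ∀ (X : Set (P × ℝ)) (Y : Set E3), Body X → IsBody Y →
      vol (coord b ⁻¹' X + Y) = (volume (X + coord b '' Y)).toReal := by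
    intro X Y hX hY
    rw [c5 _ (hadd (c2 X hX) hY), c4, c3]
  have v2 : ∀ X : Set (P × ℝ), Body X →
      vol (coord b ⁻¹' X + K + L) = (volume (X + (coord b '' K + coord b '' L))).toReal := by
    intro X hX
    rw [add_assoc, v1 X (K + L) hX (hadd hK hL), c4]
  have hV : V3 (coord b ⁻¹' M') K L - V3 (coord b ⁻¹' M) K L =
      (((volume (M' + (coord b '' K + coord b '' L))).toReal -
          (volume (M + (coord b '' K + coord b '' L))).toReal)
        - ((volume (M' + coord b '' K)).toReal - (volume (M + coord b '' K)).toReal)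
        - ((volume (M' + coord b '' L)).toReal - (volume (M + coord b '' L)).toReal)
        + ((volume M').toReal - (volume M).toReal)) / 6 := by
    unfold V3
    rw [v2 M' hM', v2 M hM, v1 M' K hM' hK, v1 M K hM hK, v1 M' L hM' hL, v1 M L hM hL,
      v0 M' hM', v0 M hM]
    ring
  rw [hint, hV, d0, d1', d2', d3']
  -- bilinearity
  have lm := (F_LC hM).2
  have lk := (F_LC hbK).2
  have ll := (F_LC hbL).2
  have lφ := LI_lip_test hφ
  have lkl := LI_lip_add lk ll
  rw [LI_F_add hM hbK, LI_F_add hM hbL, LI_F_add hM hKL, LI_F_add hbK hbL]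
  have e : ∀ {f g : P → ℝ}, Lip f → Lip g → ∀ {h : P → ℝ}, Lip h →
      B φ (fun x => f x + g x) h = B φ f h + B φ g h := by
    intro f g hf hg h hh
    exact B_add_left hφ.1 hf hg hh
  have e' : ∀ {f g : P → ℝ}, Lip f → Lip g → ∀ {h : P → ℝ}, Lip h →
      B φ h (fun x => f x + g x) = B φ h f + B φ h g := by
    intro f g hf hg h hh
    exact LI_B_add_right hφ.1 hh hf hg
  rw [e lm lk (LI_lip_add lm lk), e' lm lk lm, e' lm lk lk, e lm lk lφ,
    e lm ll (LI_lip_add lm ll), e' lm ll lm, e' lm ll ll, e lm ll lφ,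
    e lm lkl (LI_lip_add lm lkl), e' lm lkl lm, e' lm lkl lkl, e lm lkl lφ,
    e' lk ll lm, e lk ll lm, e lk ll lkl, e' lk ll lk, e' lk ll ll, e lk ll lφ,
    B_symm φ (F (coord b '' K)) (F M), B_symm φ (F (coord b '' L)) (F M),
    B_symm φ (F (coord b '' L)) (F (coord b '' K)), ← c7 K hK, ← c7 L hL]
  ring

end Pool.Agent.helper41.Sch
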